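import Mathlib

/-!
# Thin orbits of the `3m - 1` map: parity vectors and the counting bound
-/

namespace Pool.Agent.Helper55.Thin

open Finset

/-- The map `m ↦ m / 2` (`m` even), `m ↦ (3 m - 1) / 2` (`m` odd); this is `n ↦ n / 2`,
`n ↦ (3 n + 1) / 2` on negative integers `n = -m`. -/
def U (m : ℕ) : ℕ := if m % 2 = 0 then m / 2 else (3 * m - 1) / 2

/-- The odd times among the first `k` steps. -/
def odds (m k : ℕ) : Finset ℕ := (range k).filter (fun i => U^[i] m % 2 = 1)

lemma two_mul_U_even {m : ℕ} (h : m % 2 = 0) : 2 * U m = m := by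
  unfold U
  rw [if_pos h]
  omega

lemma two_mul_U_odd {m : ℕ} (h : m % 2 = 1) : 2 * U m + 1 = 3 * m := by
  unfold U
  rw [if_neg (by omega)]
  omega

lemma U_pos {m : ℕ} (h : 0 < m) : 0 < U m := by
  rcases Nat.mod_two_eq_zero_or_one m with h1 | h1
  · have := two_mul_U_even h1
    omega
  · have := two_mul_U_odd h1
    omega

lemma iter_pos {m : ℕ} (h : 0 < m) (k : ℕ) : 0 < U^[k] m := by
  induction k with
  | zero => simpa using h
  | succ k ih => rw [Function.iterate_succ_apply']; exact U_pos ih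

lemma mem_odds {m k i : ℕ} : i ∈ odds m k ↔ i < k ∧ U^[i] m % 2 = 1 := by
  simp [odds]

lemma odds_succ (m k : ℕ) :
    odds m (k + 1) = if U^[k] m % 2 = 1 then insert k (odds m k) else odds m k := by
  unfold odds
  rw [range_add_one, filter_insert]

lemma card_odds_succ (m k : ℕ) :
    (odds m (k + 1)).card = (odds m k).card + (if U^[k] m % 2 = 1 then 1 else 0) := by
  rw [odds_succ]
  split_ifs with h
  · rw [card_insert_of_notMem]
    simp [mem_odds]
  · simp

/-- growth bound -/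
lemma two_pow_mul_iter_le (m k : ℕ) : 2 ^ k * U^[k] m ≤ 3 ^ (odds m k).card * m := by
  induction k with
  | zero => simp [odds]
  | succ k ih =>
    rw [Function.iterate_succ_apply', card_odds_succ]
    rcases Nat.mod_two_eq_zero_or_one (U^[k] m) with h1 | h1
    · have h2 := two_mul_U_even h1
      rw [if_neg (by omega), add_zero, pow_succ, mul_assoc, h2]
      exact ih
    · have h2 := two_mul_U_odd h1
      rw [if_pos h1, pow_succ, mul_assoc, pow_succ]
      calc 2 ^ k * (2 * U (U^[k] m)) ≤ 2 ^ k * (3 * U^[k] m) := by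
            apply Nat.mul_le_mul_left
            omega
        _ = 3 * (2 ^ k * U^[k] m) := by ring
        _ ≤ 3 * (3 ^ (odds m k).card * m) := Nat.mul_le_mul_left _ ih
        _ = 3 ^ (odds m k).card * 3 * m := by ring

/-- two numbers with the same parities -/
lemma diff_eq (m m' k : ℕ) (h : ∀ i < k, U^[i] m % 2 = U^[i] m' % 2) :
    ∃ a : ℕ, (2 : ℤ) ^ k * ((U^[k] m : ℤ) - U^[k] m') = 3 ^ a * ((m : ℤ) - m') := by
  induction k with
  | zero => exact ⟨0, by simp⟩
  | succ k ih =>
    obtain ⟨a, ha⟩ := ih (fun i hi => h i (by omega))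
    have hk := h k (by omega)
    rw [Function.iterate_succ_apply', Function.iterate_succ_apply']
    rcases Nat.mod_two_eq_zero_or_one (U^[k] m) with h1 | h1
    · have h2 := two_mul_U_even h1
      have h3 := two_mul_U_even (hk ▸ h1)
      refine ⟨a, ?_⟩
      have h2' : (2 : ℤ) * U (U^[k] m) = U^[k] m := by exact_mod_cast h2
      have h3' : (2 : ℤ) * U (U^[k] m') = U^[k] m' := by exact_mod_cast h3
      rw [← ha, pow_succ]
      linear_combination (2 : ℤ) ^ k * (h2' - h3')
    · have h2 := two_mul_U_odd h1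
      have h3 := two_mul_U_odd (hk ▸ h1)
      refine ⟨a + 1, ?_⟩
      have h2' : (2 : ℤ) * U (U^[k] m) + 1 = 3 * U^[k] m := by exact_mod_cast h2
      have h3' : (2 : ℤ) * U (U^[k] m') + 1 = 3 * U^[k] m' := by exact_mod_cast h3
      rw [pow_succ, pow_succ]
      linear_combination (2 : ℤ) ^ k * (h2' - h3') + 3 * ha

lemma eq_of_odds_eq {m m' k : ℕ} (hm : 1 ≤ m) (hm2 : m ≤ 2 ^ k) (hm' : 1 ≤ m')
    (hm2' : m' ≤ 2 ^ k) (h : odds m k = odds m' k) : m = m' := by
  have hpar : ∀ i < k, U^[i] m % 2 = U^[i] m' % 2 := by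
    intro i hi
    have h1 : i ∈ odds m k ↔ i ∈ odds m' k := by rw [h]
    rw [mem_odds, mem_odds] at h1
    rcases Nat.mod_two_eq_zero_or_one (U^[i] m) with h2 | h2 <;>
      rcases Nat.mod_two_eq_zero_or_one (U^[i] m') with h3 | h3 <;> simp_all
  obtain ⟨a, ha⟩ := diff_eq m m' k hpar
  have hdvd : (2 : ℤ) ^ k ∣ (m : ℤ) - m' := by
    have h1 : (2 : ℤ) ^ k ∣ 3 ^ a * ((m : ℤ) - m') := ⟨_, ha.symm⟩
    refine IsCoprime.dvd_of_dvd_mul_left ?_ h1
    exact IsCoprime.pow (by norm_num)
  have hlt : |(m : ℤ) - m'| < 2 ^ k := by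
    rw [abs_lt]
    have h2 : (m : ℤ) ≤ 2 ^ k := by exact_mod_cast hm2
    have h3 : (m' : ℤ) ≤ 2 ^ k := by exact_mod_cast hm2'
    constructor <;> [skip; skip] <;> omega
  have := Int.eq_zero_of_abs_lt_dvd hdvd hlt
  omega

/-- Chernoff bound for subsets of `range k` with at least `β k` elements. -/
lemma card_heavy_le {β : ℝ} (h1 : 1 / 2 ≤ β) (h2 : β < 1) (k : ℕ) :
    ((((range k).powerset).filter (fun S : Finset ℕ => β * k ≤ (S.card : ℝ))).card : ℝ) ≤
      Real.exp (Real.binEntropy β * k) := by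
  have hb0 : 0 < β := by linarith
  have hb1 : 0 < 1 - β := by linarith
  set l : ℝ := β / (1 - β) with hl
  have hl1 : 1 ≤ l := by
    rw [hl, le_div_iff₀ hb1]
    linarith
  have hl0 : 0 < l := by linarith
  have hl2 : l + 1 = (1 - β)⁻¹ := by
    rw [hl]
    field_simp
    ring
  have h3 : ((((range k).powerset).filter (fun S : Finset ℕ => β * k ≤ (S.card : ℝ))).card : ℝ) ≤
      ∑ S ∈ (range k).powerset, l ^ ((S.card : ℝ) - β * k) := by
    rw [card_eq_sum_ones, Nat.cast_sum]
    calc ∑ S ∈ ((range k).powerset).filter (fun S : Finset ℕ => β * k ≤ (S.card : ℝ)),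
          ((1 : ℕ) : ℝ)
        ≤ ∑ S ∈ ((range k).powerset).filter (fun S : Finset ℕ => β * k ≤ (S.card : ℝ)),
          l ^ ((S.card : ℝ) - β * k) := by
          apply sum_le_sum
          intro S hS
          rw [mem_filter] at hS
          rw [Nat.cast_one]
          exact Real.one_le_rpow hl1 (by linarith [hS.2])
      _ ≤ _ := by
          apply sum_le_sum_of_subset_of_nonneg (filter_subset _ _)
          intro S _ _
          positivity
  refine h3.trans (le_of_eq ?_)
  have h4 : ∑ S ∈ (range k).powerset, l ^ ((S.card : ℝ) - β * k) =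
      l ^ (-(β * k)) * (l + 1) ^ k := by
    have h5 := Finset.sum_pow_mul_eq_add_pow l 1 (range k)
    rw [card_range] at h5
    rw [← h5, mul_sum]
    apply sum_congr rfl
    intro S _
    rw [one_pow, mul_one, ← Real.rpow_natCast, ← Real.rpow_add hl0]
    congr 1
    ring
  rw [h4, hl2, Real.rpow_def_of_pos hl0, ← Real.rpow_natCast,
    Real.rpow_def_of_pos (inv_pos.2 hb1), ← Real.exp_add]
  congr 1
  rw [Real.binEntropy, hl, Real.log_div hb0.ne' hb1.ne', Real.log_inv, Real.log_inv]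
  ring

/-- numbers up to `2 ^ k` with many odd steps -/
lemma card_bad_le {β : ℝ} (h1 : 1 / 2 ≤ β) (h2 : β < 1) (k : ℕ) (s : Finset ℕ)
    (hs : ∀ m ∈ s, 1 ≤ m ∧ m ≤ 2 ^ k ∧ β * k ≤ ((odds m k).card : ℝ)) :
    (s.card : ℝ) ≤ Real.exp (Real.binEntropy β * k) := by
  refine le_trans ?_ (card_heavy_le h1 h2 k)
  have h1 : s.card ≤
      (((range k).powerset).filter (fun S : Finset ℕ => β * k ≤ (S.card : ℝ))).card := by
    apply card_le_card_of_injOn (fun m => odds m k)
    · intro m hm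
      simp only [coe_filter, mem_powerset, Set.mem_ofPred_eq]
      exact ⟨filter_subset _ _, (hs m hm).2.2⟩
    · intro m hm m' hm' h
      exact eq_of_odds_eq (hs m hm).1 (hs m hm).2.1 (hs m' hm').1 (hs m' hm').2.1 h
  exact_mod_cast h1

/-- there is a threshold beyond which the good numbers decrease by a factor `2` -/
lemma exists_threshold {β : ℝ} (hβ : β < Real.log 2 / Real.log 3) :
    ∃ k0 : ℕ, 1 ≤ k0 ∧ ∀ k, k0 ≤ k → ∀ a : ℕ, (a : ℝ) < β * k → 3 ^ a ≤ 2 ^ (k - 1) := by
  have hl3 : 0 < Real.log 3 := Real.log_pos (by norm_num)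
  have hl2 : 0 < Real.log 2 := Real.log_pos (by norm_num)
  have hpos : 0 < Real.log 2 - β * Real.log 3 := by
    rw [lt_div_iff₀ hl3] at hβ
    linarith
  obtain ⟨k1, hk1⟩ := exists_nat_ge (Real.log 2 / (Real.log 2 - β * Real.log 3))
  refine ⟨max k1 1, le_max_right _ _, fun k hk a ha => ?_⟩
  have hk2 : 1 ≤ k := (le_max_right _ _).trans hk
  have hk3 : (k1 : ℝ) ≤ k := by exact_mod_cast (le_max_left _ _).trans hk
  have h1 : Real.log 2 ≤ k * (Real.log 2 - β * Real.log 3) := by
    have := hk1.trans hk3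
    rwa [div_le_iff₀ hpos] at this
  have h2 : (a : ℝ) * Real.log 3 ≤ (k - 1) * Real.log 2 := by
    have h3 : (a : ℝ) * Real.log 3 ≤ β * k * Real.log 3 :=
      mul_le_mul_of_nonneg_right ha.le hl3.le
    nlinarith
  have h5 : (3 : ℝ) ^ a ≤ 2 ^ (k - 1) := by
    rw [← Real.log_le_log_iff (by positivity) (by positivity), Real.log_pow, Real.log_pow,
      Nat.cast_sub hk2, Nat.cast_one]
    exact h2
  exact_mod_cast h5

end Pool.Agent.Helper55.Thin
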