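import Pool.Agent.Helper55.Thin.Base

/-!
# Thin orbits of the `3m - 1` map: the recursion inside one orbit
-/

namespace Pool.Agent.Helper55.Thin

open Finset

/-- The number of indices `j < K` with `U^j(m) ≤ 2 ^ k`. -/
def cnt (m K k : ℕ) : ℕ := ((range K).filter (fun j => U^[j] m ≤ 2 ^ k)).card

lemma cnt_le_two_pow {m K : ℕ} (hm : 0 < m)
    (hinj : Set.InjOn (fun j => U^[j] m) (range K : Set ℕ)) (k : ℕ) : cnt m K k ≤ 2 ^ k := by
  have h1 : cnt m K k ≤ (Finset.Icc 1 (2 ^ k)).card := by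
    apply card_le_card_of_injOn (fun j => U^[j] m)
    · intro j hj
      have hj' := mem_filter.1 (mem_coe.1 hj)
      exact mem_coe.2 (mem_Icc.2 ⟨iter_pos hm j, hj'.2⟩)
    · intro i hi j hj h
      exact hinj (mem_coe.2 (mem_filter.1 (mem_coe.1 hi)).1)
        (mem_coe.2 (mem_filter.1 (mem_coe.1 hj)).1) h
  simpa using h1

lemma cnt_step {β : ℝ} (h1 : 1 / 2 ≤ β) (h2 : β < 1) {k0 : ℕ} (hk0 : 1 ≤ k0)
    (hth : ∀ k, k0 ≤ k → ∀ a : ℕ, (a : ℝ) < β * k → 3 ^ a ≤ 2 ^ (k - 1))
    {m K : ℕ} (hm : 0 < m) (hinj : Set.InjOn (fun j => U^[j] m) (range K : Set ℕ))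
    {k : ℕ} (hk : k0 ≤ k) :
    (cnt m K k : ℝ) ≤ Real.exp (Real.binEntropy β * k) + k + cnt m K (k - 1) := by
  classical
  set A := (range K).filter (fun j => U^[j] m ≤ 2 ^ k) with hA
  set A1 := A.filter (fun j => K ≤ j + k) with hA1
  set A' := A.filter (fun j => ¬ K ≤ j + k) with hA'
  set A2 := A'.filter (fun j => β * k ≤ ((odds (U^[j] m) k).card : ℝ)) with hA2
  set A3 := A'.filter (fun j => ¬ β * k ≤ ((odds (U^[j] m) k).card : ℝ)) with hA3
  have hc1 : A.card = A1.card + A'.card :=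
    (Finset.card_filter_add_card_filter_not (s := A) (fun j => K ≤ j + k)).symm
  have hc2 : A'.card = A2.card + A3.card :=
    (Finset.card_filter_add_card_filter_not (s := A')
      (fun j => β * k ≤ ((odds (U^[j] m) k).card : ℝ))).symm
  have hb1 : A1.card ≤ k := by
    have h3 : A1 ⊆ Finset.Ico (K - k) K := by
      intro j hj
      rw [hA1, mem_filter, hA, mem_filter, mem_range] at hj
      rw [mem_Ico]
      omega
    have h4 := card_le_card h3
    rw [Nat.card_Ico] at h4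
    omega
  have hb2 : (A2.card : ℝ) ≤ Real.exp (Real.binEntropy β * k) := by
    have h3 : A2.card = (A2.image (fun j => U^[j] m)).card := by
      rw [card_image_of_injOn]
      intro i hi j hj h
      have hi' := (mem_filter.1 (mem_filter.1 (mem_filter.1 (mem_coe.1 hi)).1).1).1
      have hj' := (mem_filter.1 (mem_filter.1 (mem_filter.1 (mem_coe.1 hj)).1).1).1
      exact hinj (mem_coe.2 hi') (mem_coe.2 hj') h
    rw [h3]
    apply card_bad_le h1 h2
    intro v hv
    obtain ⟨j, hj, rfl⟩ := mem_image.1 hv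
    have hj1 := mem_filter.1 hj
    have hj2 := mem_filter.1 (mem_filter.1 hj1.1).1
    exact ⟨iter_pos hm j, hj2.2, hj1.2⟩
  have hb3 : A3.card ≤ cnt m K (k - 1) := by
    unfold cnt
    apply card_le_card_of_injOn (fun j => j + k)
    · intro j hj
      have hj1 := mem_filter.1 (mem_coe.1 hj)
      have hj2 := mem_filter.1 hj1.1
      have hj3 := mem_filter.1 hj2.1
      refine mem_coe.2 (mem_filter.2 ⟨mem_range.2 (show j + k < K by omega), ?_⟩)
      have h3 : (((odds (U^[j] m) k).card : ℕ) : ℝ) < β * k := not_le.1 hj1.2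
      have h4 := hth k hk _ h3
      have h5 := two_pow_mul_iter_le (U^[j] m) k
      have h6 : U^[k] (U^[j] m) = U^[j + k] m := by
        rw [add_comm j k, Function.iterate_add_apply]
      rw [h6] at h5
      have h7 : 2 ^ k * U^[j + k] m ≤ 2 ^ k * 3 ^ (odds (U^[j] m) k).card := by
        rw [mul_comm (2 ^ k) (3 ^ _)]
        exact h5.trans (Nat.mul_le_mul_left _ hj3.2)
      exact (Nat.le_of_mul_le_mul_left h7 (by positivity)).trans h4
    · intro i _ j _ h
      simpa using h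
  have h8 : (cnt m K k : ℝ) = (A1.card : ℝ) + ((A2.card : ℝ) + (A3.card : ℝ)) := by
    have h9 : cnt m K k = A1.card + (A2.card + A3.card) := by rw [← hc2, ← hc1]; rfl
    exact_mod_cast h9
  have h10 : (A1.card : ℝ) ≤ k := by exact_mod_cast hb1
  have h11 : (A3.card : ℝ) ≤ cnt m K (k - 1) := by exact_mod_cast hb3
  rw [h8]
  linarith

lemma cnt_bound {β : ℝ} (h1 : 1 / 2 ≤ β) (h2 : β < 1) {k0 : ℕ} (hk0 : 1 ≤ k0)
    (hth : ∀ k, k0 ≤ k → ∀ a : ℕ, (a : ℝ) < β * k → 3 ^ a ≤ 2 ^ (k - 1))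
    {m K : ℕ} (hm : 0 < m) (hinj : Set.InjOn (fun j => U^[j] m) (range K : Set ℕ)) (k : ℕ) :
    (cnt m K k : ℝ) ≤ 2 ^ k0 + ((k : ℝ) + 1) * (Real.exp (Real.binEntropy β * k) + k) := by
  have hh : 0 ≤ Real.binEntropy β := Real.binEntropy_nonneg (by linarith) h2.le
  induction k with
  | zero =>
    have h3 : (cnt m K 0 : ℝ) ≤ (1 : ℝ) := by
      have := cnt_le_two_pow hm hinj 0
      exact_mod_cast this
    have h4 : (1 : ℝ) ≤ 2 ^ k0 := one_le_pow₀ (by norm_num)
    have h5 : (0 : ℝ) ≤ (((0 : ℕ) : ℝ) + 1) *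
        (Real.exp (Real.binEntropy β * ((0 : ℕ) : ℝ)) + ((0 : ℕ) : ℝ)) := by positivity
    linarith
  | succ k ih =>
    rcases Nat.lt_or_ge (k + 1) k0 with hlt | hge
    · have h3 : (cnt m K (k + 1) : ℝ) ≤ 2 ^ (k + 1) := by
        exact_mod_cast cnt_le_two_pow hm hinj (k + 1)
      have h4 : (2 : ℝ) ^ (k + 1) ≤ 2 ^ k0 := pow_le_pow_right₀ (by norm_num) hlt.le
      have h5 : (0 : ℝ) ≤ (((k + 1 : ℕ) : ℝ) + 1) *
        (Real.exp (Real.binEntropy β * ((k + 1 : ℕ) : ℝ)) + ((k + 1 : ℕ) : ℝ)) := by positivity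
      linarith
    · have h3 := cnt_step h1 h2 hk0 hth hm hinj hge
      rw [Nat.add_sub_cancel] at h3
      have h4 : Real.exp (Real.binEntropy β * k) + k ≤
          Real.exp (Real.binEntropy β * ((k + 1 : ℕ) : ℝ)) + ((k + 1 : ℕ) : ℝ) := by
        apply add_le_add
        · apply Real.exp_le_exp.2
          apply mul_le_mul_of_nonneg_left _ hh
          push_cast
          linarith
        · push_cast
          linarith
      have h5 : ((k : ℝ) + 1) * (Real.exp (Real.binEntropy β * k) + k) ≤ ((k : ℝ) + 1) *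
          (Real.exp (Real.binEntropy β * ((k + 1 : ℕ) : ℝ)) + ((k + 1 : ℕ) : ℝ)) :=
        mul_le_mul_of_nonneg_left h4 (by positivity)
      calc (cnt m K (k + 1) : ℝ)
          ≤ Real.exp (Real.binEntropy β * ((k + 1 : ℕ) : ℝ)) + ((k + 1 : ℕ) : ℝ) +
            (2 ^ k0 + ((k : ℝ) + 1) * (Real.exp (Real.binEntropy β * k) + k)) := by linarith
        _ ≤ Real.exp (Real.binEntropy β * ((k + 1 : ℕ) : ℝ)) + ((k + 1 : ℕ) : ℝ) +
            (2 ^ k0 + ((k : ℝ) + 1) *
              (Real.exp (Real.binEntropy β * ((k + 1 : ℕ) : ℝ)) + ((k + 1 : ℕ) : ℝ))) := by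
            linarith
        _ = 2 ^ k0 + (((k + 1 : ℕ) : ℝ) + 1) *
            (Real.exp (Real.binEntropy β * ((k + 1 : ℕ) : ℝ)) + ((k + 1 : ℕ) : ℝ)) := by
            push_cast
            ring

lemma growth {h t : ℝ} (hh : 0 ≤ h) (ht : h < t) (A : ℝ) (hA : 0 ≤ A) :
    ∃ C : ℝ, 0 < C ∧ ∀ k : ℕ, A + ((k : ℝ) + 1) * (Real.exp (h * k) + k) ≤ C * Real.exp (t * k) := by
  set δ := (t - h) / 2 with hδ
  have hδ0 : 0 < δ := by rw [hδ]; linarith
  refine ⟨A + Real.exp δ / δ * (1 + 1 / δ), by positivity, fun k => ?_⟩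
  have hk : (0 : ℝ) ≤ k := Nat.cast_nonneg k
  have e1 : (k : ℝ) + 1 ≤ Real.exp δ / δ * Real.exp (δ * k) := by
    rw [div_mul_eq_mul_div, ← Real.exp_add, le_div_iff₀ hδ0]
    have := Real.add_one_le_exp (δ + δ * k)
    nlinarith
  have e2 : Real.exp (h * k) + k ≤ (1 + 1 / δ) * Real.exp ((h + δ) * k) := by
    have h1 : Real.exp (h * k) ≤ Real.exp ((h + δ) * k) := by
      apply Real.exp_le_exp.2
      nlinarith
    have h2 : (k : ℝ) ≤ 1 / δ * Real.exp ((h + δ) * k) := by
      rw [div_mul_eq_mul_div, one_mul, le_div_iff₀ hδ0]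
      have h3 := Real.add_one_le_exp ((h + δ) * k)
      nlinarith
    calc Real.exp (h * k) + k ≤ Real.exp ((h + δ) * k) + 1 / δ * Real.exp ((h + δ) * k) :=
          add_le_add h1 h2
      _ = (1 + 1 / δ) * Real.exp ((h + δ) * k) := by ring
  have e3 : Real.exp (δ * k) * Real.exp ((h + δ) * k) = Real.exp (t * k) := by
    rw [← Real.exp_add]
    congr 1
    rw [hδ]
    ring
  have e4 : (1 : ℝ) ≤ Real.exp (t * k) := by
    rw [Real.one_le_exp_iff]
    have : 0 ≤ t := by linarith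
    positivity
  calc A + ((k : ℝ) + 1) * (Real.exp (h * k) + k)
      ≤ A * Real.exp (t * k) + (Real.exp δ / δ * Real.exp (δ * k)) *
        ((1 + 1 / δ) * Real.exp ((h + δ) * k)) := by
        apply add_le_add
        · exact le_mul_of_one_le_right hA e4
        · apply mul_le_mul e1 e2 (by positivity) (by positivity)
    _ = A * Real.exp (t * k) + (Real.exp δ / δ) * (1 + 1 / δ) *
        (Real.exp (δ * k) * Real.exp ((h + δ) * k)) := by ring
    _ = (A + Real.exp δ / δ * (1 + 1 / δ)) * Real.exp (t * k) := by rw [e3]; ring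

/-- The critical exponent: the binary entropy (base `2`) of `log 2 / log 3`. -/
noncomputable def crit : ℝ := Real.binEntropy (Real.log 2 / Real.log 3) / Real.log 2

lemma half_lt_ratio : 1 / 2 < Real.log 2 / Real.log 3 := by
  rw [div_lt_div_iff₀ (by norm_num) (Real.log_pos (by norm_num)), one_mul]
  have : Real.log 3 < Real.log (2 ^ 2) := Real.log_lt_log (by norm_num) (by norm_num)
  rw [Real.log_pow] at this
  push_cast at this
  linarith

lemma ratio_lt_one : Real.log 2 / Real.log 3 < 1 := by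
  rw [div_lt_one (Real.log_pos (by norm_num))]
  exact Real.log_lt_log (by norm_num) (by norm_num)

lemma exists_beta {τ : ℝ} (hτ : crit < τ) : ∃ β : ℝ, 1 / 2 ≤ β ∧ β < Real.log 2 / Real.log 3 ∧
    Real.binEntropy β < τ * Real.log 2 := by
  have hl2 : 0 < Real.log 2 := Real.log_pos (by norm_num)
  have h1 : Real.binEntropy (Real.log 2 / Real.log 3) < τ * Real.log 2 := by
    unfold crit at hτ
    rwa [div_lt_iff₀ hl2] at hτ
  have hcont : Continuous Real.binEntropy := Real.binEntropy_continuous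
  have hev : ∀ᶠ β in nhds (Real.log 2 / Real.log 3), Real.binEntropy β < τ * Real.log 2 :=
    hcont.continuousAt.eventually (gt_mem_nhds h1)
  have hev2 : ∀ᶠ β in nhds (Real.log 2 / Real.log 3), 1 / 2 < β := lt_mem_nhds half_lt_ratio
  obtain ⟨ε, hε, hball⟩ := Metric.eventually_nhds_iff.1 (hev.and hev2)
  have h2 := @hball (Real.log 2 / Real.log 3 - ε / 2) (by
    rw [Real.dist_eq, show Real.log 2 / Real.log 3 - ε / 2 - Real.log 2 / Real.log 3 = -(ε / 2) by
      ring, abs_neg, abs_of_pos (by linarith)]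
    linarith)
  exact ⟨Real.log 2 / Real.log 3 - ε / 2, h2.2.le, by linarith, h2.1⟩

/-- main theorem for injective segments of orbits, at powers of two -/
theorem cnt_le {τ : ℝ} (hτ : crit < τ) : ∃ C : ℝ, 0 < C ∧ ∀ m K : ℕ, 0 < m →
    Set.InjOn (fun j => U^[j] m) (range K : Set ℕ) → ∀ k : ℕ,
      (cnt m K k : ℝ) ≤ C * (2 : ℝ) ^ (τ * k) := by
  obtain ⟨β, h1, h2, h3⟩ := exists_beta hτ
  have h2' : β < 1 := h2.trans ratio_lt_one
  obtain ⟨k0, hk0, hth⟩ := exists_threshold h2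
  obtain ⟨C, hC, hg⟩ := growth (Real.binEntropy_nonneg (by linarith) h2'.le) h3 (2 ^ k0)
    (by positivity)
  refine ⟨C, hC, fun m K hm hinj k => ?_⟩
  refine (cnt_bound h1 h2' hk0 hth hm hinj k).trans ((hg k).trans (le_of_eq ?_))
  rw [Real.rpow_def_of_pos (by norm_num)]
  congr 2
  ring

lemma crit_nonneg : 0 ≤ crit := by
  unfold crit
  have hl2 : 0 < Real.log 2 := Real.log_pos (by norm_num)
  have h1 := half_lt_ratio
  exact div_nonneg (Real.binEntropy_nonneg (by linarith) ratio_lt_one.le) hl2.le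

/-- the orbit as a set -/
theorem orbit_le {τ : ℝ} (hτ : crit < τ) : ∃ C : ℝ, 0 < C ∧ ∀ m : ℕ, 0 < m → ∀ x : ℝ, 1 ≤ x →
    ∀ F : Finset ℕ, (∀ v ∈ F, (v : ℝ) ≤ x ∧ ∃ t, U^[t] m = v) → (F.card : ℝ) ≤ C * x ^ τ := by
  classical
  obtain ⟨C, hC, hc⟩ := cnt_le hτ
  have hτ0 : 0 < τ := lt_of_le_of_lt crit_nonneg hτ
  refine ⟨C * 2 ^ τ, by positivity, fun m hm x hx F hF => ?_⟩
  rcases F.eq_empty_or_nonempty with rfl | hne
  · rw [card_empty, Nat.cast_zero]
    positivity
  set t : ℕ → ℕ := fun v => if h : ∃ t, U^[t] m = v then Nat.find h else 0 with ht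
  have ht1 : ∀ v ∈ F, U^[t v] m = v ∧ ∀ i < t v, U^[i] m ≠ v := by
    intro v hv
    have h := (hF v hv).2
    have h3 : t v = Nat.find h := by simp only [ht, dif_pos h]
    rw [h3]
    exact ⟨Nat.find_spec h, fun i hi => Nat.find_min h hi⟩
  obtain ⟨w, hw, hmax⟩ := F.exists_max_image t hne
  set T := t w with hT
  have hinj : Set.InjOn (fun j => U^[j] m) (range (T + 1) : Set ℕ) := by
    have key : ∀ i j : ℕ, i < j → j ≤ T → U^[i] m ≠ U^[j] m := by
      intro i j hij hj h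
      have h3 : U^[T - (j - i)] m = U^[T] m := by
        rw [show T - (j - i) = (T - j) + i by omega]
        conv_rhs => rw [show T = (T - j) + j by omega]
        rw [Function.iterate_add_apply, Function.iterate_add_apply, h]
      have h4 := (ht1 w hw).2 (T - (j - i)) (by omega)
      exact h4 (h3.trans (ht1 w hw).1)
    intro i hi j hj h
    have hi' : i ≤ T := by
      have := mem_range.1 (mem_coe.1 hi); omega
    have hj' : j ≤ T := by
      have := mem_range.1 (mem_coe.1 hj); omega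
    rcases lt_trichotomy i j with h3 | h3 | h3
    · exact absurd h (key i j h3 hj')
    · exact h3
    · exact absurd h.symm (key j i h3 hi')
  set k := ⌈Real.logb 2 x⌉₊ with hk
  have hlog0 : 0 ≤ Real.logb 2 x := Real.logb_nonneg (by norm_num) hx
  have hx0 : 0 < x := by linarith
  have hk1 : x ≤ (2 : ℝ) ^ (k : ℝ) := by
    rw [← Real.logb_le_iff_le_rpow (by norm_num) hx0]
    exact Nat.le_ceil _
  have hk2 : (2 : ℝ) ^ (k : ℝ) ≤ 2 * x := by
    have h3 : (k : ℝ) ≤ Real.logb 2 x + 1 := (Nat.ceil_lt_add_one hlog0).le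
    calc (2 : ℝ) ^ (k : ℝ) ≤ (2 : ℝ) ^ (Real.logb 2 x + 1) :=
          Real.rpow_le_rpow_of_exponent_le (by norm_num) h3
      _ = 2 * x := by
          rw [Real.rpow_add (by norm_num), Real.rpow_logb (by norm_num) (by norm_num) hx0,
            Real.rpow_one]
          ring
  have hcard : F.card ≤ cnt m (T + 1) k := by
    unfold cnt
    apply card_le_card_of_injOn t
    · intro v hv
      have hv' := mem_coe.1 hv
      refine mem_coe.2 (mem_filter.2 ⟨mem_range.2 ?_, ?_⟩)
      · have := hmax v hv'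
        omega
      · rw [(ht1 v hv').1]
        have h3 : (v : ℝ) ≤ (2 : ℝ) ^ (k : ℝ) := ((hF v hv').1).trans hk1
        rw [Real.rpow_natCast] at h3
        exact_mod_cast h3
    · intro v hv v' hv' h
      rw [← (ht1 v (mem_coe.1 hv)).1, ← (ht1 v' (mem_coe.1 hv')).1, h]
  calc (F.card : ℝ) ≤ cnt m (T + 1) k := by exact_mod_cast hcard
    _ ≤ C * (2 : ℝ) ^ (τ * k) := hc m (T + 1) hm hinj k
    _ = C * ((2 : ℝ) ^ (k : ℝ)) ^ τ := by
        rw [← Real.rpow_mul (by norm_num), mul_comm τ]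
    _ ≤ C * (2 * x) ^ τ := by
        apply mul_le_mul_of_nonneg_left _ hC.le
        exact Real.rpow_le_rpow (by positivity) hk2 hτ0.le
    _ = C * 2 ^ τ * x ^ τ := by
        rw [Real.mul_rpow (by norm_num) hx0.le]
        ring

end Pool.Agent.Helper55.Thin
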