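import Pool.Agent.Helper55.Thin.Orbit

/-!
# Thin orbits: passage to the Syracuse map on negative odd integers
-/

namespace Pool.Agent.Helper55.Thin

open Finset

lemma iter_halve {w : ℕ} (j : ℕ) (h : 2 ^ j ∣ w) : U^[j] w = w / 2 ^ j := by
  induction j with
  | zero => simp
  | succ j ih =>
    have h1 : 2 ^ j ∣ w := (pow_dvd_pow 2 (Nat.le_succ j)).trans h
    rw [Function.iterate_succ_apply', ih h1]
    obtain ⟨c, rfl⟩ := h
    have h2 : 2 ^ (j + 1) * c / 2 ^ j = 2 * c := by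
      rw [pow_succ, mul_assoc]
      exact Nat.mul_div_cancel_left _ (by positivity)
    have h3 : 2 ^ (j + 1) * c / 2 ^ (j + 1) = c := Nat.mul_div_cancel_left _ (by positivity)
    rw [h2, h3]
    unfold U
    rw [if_pos (by omega)]
    omega

/-- One Syracuse step on `-m`, `m` odd. -/
lemma syr_step {m : ℕ} (hodd : m % 2 = 1) : ∃ t : ℕ,
    (3 * (-(m : ℤ)) + 1) / 2 ^ padicValInt 2 (3 * (-(m : ℤ)) + 1) = -((U^[t] m : ℕ) : ℤ) ∧
      U^[t] m % 2 = 1 := by
  set w : ℕ := 3 * m - 1 with hw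
  have hw0 : w ≠ 0 := by omega
  have hneg : 3 * (-(m : ℤ)) + 1 = -(w : ℤ) := by omega
  set e := padicValNat 2 w with he
  have hval : padicValInt 2 (3 * (-(m : ℤ)) + 1) = e := by
    rw [hneg, padicValInt, Int.natAbs_neg, Int.natAbs_natCast]
  have hdvd : 2 ^ e ∣ w := pow_padicValNat_dvd
  have hndvd : ¬ 2 ^ (e + 1) ∣ w := by
    rw [he]
    exact pow_succ_padicValNat_not_dvd hw0
  have he1 : 1 ≤ e := by
    rw [he, ← padicValNat_dvd_iff_le hw0]
    omega
  obtain ⟨c, hc⟩ := hdvd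
  have hUm : U m = w / 2 := by
    unfold U
    rw [if_neg (by omega)]
  obtain ⟨e', he'⟩ : ∃ e', e = e' + 1 := ⟨e - 1, by omega⟩
  have hw2 : w / 2 = 2 ^ e' * c := by
    rw [hc, he', pow_succ, mul_comm (2 ^ e') 2, mul_assoc]
    exact Nat.mul_div_cancel_left _ (by norm_num)
  have hUe : U^[e] m = c := by
    rw [he', Function.iterate_succ_apply, hUm, hw2, iter_halve e' ⟨c, rfl⟩]
    exact Nat.mul_div_cancel_left _ (by positivity)
  have hcodd : c % 2 = 1 := by
    by_contra h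
    apply hndvd
    obtain ⟨d, rfl⟩ : ∃ d, c = 2 * d := ⟨c / 2, by omega⟩
    rw [hc]
    exact ⟨d, by ring⟩
  refine ⟨e, ?_, by rw [hUe]; exact hcodd⟩
  rw [hval, hneg, hUe, hc]
  push_cast
  rw [← mul_neg]
  exact Int.mul_ediv_cancel_left _ (by positivity)

/-- Syracuse iterates of `-m` are negatives of `U`-iterates of `m`. -/
lemma syr_iter {m : ℕ} (hodd : m % 2 = 1) (k : ℕ) : ∃ t : ℕ,
    (fun n : ℤ => (3 * n + 1) / 2 ^ padicValInt 2 (3 * n + 1))^[k] (-(m : ℤ)) =
      -((U^[t] m : ℕ) : ℤ) ∧ U^[t] m % 2 = 1 := by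
  induction k with
  | zero => exact ⟨0, by simp, by simpa using hodd⟩
  | succ k ih =>
    obtain ⟨t, h1, h2⟩ := ih
    obtain ⟨s, h3, h4⟩ := syr_step h2
    refine ⟨s + t, ?_, ?_⟩
    · rw [Function.iterate_succ_apply', h1, Function.iterate_add_apply]
      exact h3
    · rw [Function.iterate_add_apply]
      exact h4

/-- Gibbs' inequality for the binary entropy. -/
lemma binEntropy_le {p q : ℝ} (hp0 : 0 < p) (hp1 : p < 1) (hq0 : 0 < q) (hq1 : q < 1) :
    Real.binEntropy p ≤ p * Real.log q⁻¹ + (1 - p) * Real.log (1 - q)⁻¹ := by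
  have h1 : Real.log (q / p) ≤ q / p - 1 := Real.log_le_sub_one_of_pos (by positivity)
  have h1p : 0 < 1 - p := by linarith
  have h1q : 0 < 1 - q := by linarith
  have h2 : Real.log ((1 - q) / (1 - p)) ≤ (1 - q) / (1 - p) - 1 :=
    Real.log_le_sub_one_of_pos (by positivity)
  rw [Real.log_div hq0.ne' hp0.ne'] at h1
  rw [Real.log_div h1q.ne' h1p.ne'] at h2
  have h3 := mul_le_mul_of_nonneg_left h1 hp0.le
  have h4 := mul_le_mul_of_nonneg_left h2 h1p.le
  have h5 : p * (q / p - 1) = q - p := by field_simp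
  have h6 : (1 - p) * ((1 - q) / (1 - p) - 1) = p - q := by
    field_simp
    ring
  rw [h5] at h3
  rw [h6] at h4
  rw [Real.binEntropy, Real.log_inv, Real.log_inv, Real.log_inv, Real.log_inv]
  linarith

/-- Taking logarithms in a numerical inequality between natural numbers. -/
lemma log_ineq (a b c d : ℕ) (h : 19 ^ a < 2 ^ b * 12 ^ c * 7 ^ d) :
    (a : ℝ) * Real.log 19 < b * Real.log 2 + c * Real.log 12 + d * Real.log 7 := by
  have hR : (19 : ℝ) ^ a < (2 : ℝ) ^ b * (12 : ℝ) ^ c * (7 : ℝ) ^ d := by exact_mod_cast h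
  have hL := Real.log_lt_log (by positivity) hR
  rwa [Real.log_mul (by positivity) (by positivity), Real.log_mul (by positivity) (by positivity),
    Real.log_pow, Real.log_pow, Real.log_pow, Real.log_pow] at hL

/-- Taking logarithms in a numerical inequality between powers of `3` and `2`. -/
lemma log_ineq' (a b : ℕ) (h : 3 ^ a < 2 ^ b) : (a : ℝ) * Real.log 3 < b * Real.log 2 := by
  have hR : (3 : ℝ) ^ a < (2 : ℝ) ^ b := by exact_mod_cast h
  have hL := Real.log_lt_log (by positivity) hR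
  rwa [Real.log_pow, Real.log_pow] at hL

lemma crit_lt : crit < 19 / 20 := by
  have hl2 : 0 < Real.log 2 := Real.log_pos (by norm_num)
  have hl3 : 0 < Real.log 3 := Real.log_pos (by norm_num)
  have hratio : (306 : ℝ) / 485 < Real.log 2 / Real.log 3 := by
    rw [div_lt_div_iff₀ (by norm_num) hl3]
    have h3 := log_ineq' 306 485 (by decide +kernel)
    rw [Nat.cast_ofNat, Nat.cast_ofNat] at h3
    linarith
  have hg := binEntropy_le (p := Real.log 2 / Real.log 3) (q := 12 / 19)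
    (by linarith [half_lt_ratio]) ratio_lt_one (by norm_num) (by norm_num)
  have hL := log_ineq 1940 1843 1224 716 (by decide +kernel)
  rw [Nat.cast_ofNat, Nat.cast_ofNat, Nat.cast_ofNat, Nat.cast_ofNat] at hL
  unfold crit
  rw [div_lt_iff₀ hl2]
  refine lt_of_le_of_lt hg ?_
  have e1 : Real.log (12 / 19 : ℝ)⁻¹ = Real.log 19 - Real.log 12 := by
    rw [Real.log_inv, Real.log_div (by norm_num) (by norm_num)]
    ring
  have e2 : Real.log (1 - 12 / 19 : ℝ)⁻¹ = Real.log 19 - Real.log 7 := by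
    rw [show (1 - 12 / 19 : ℝ) = 7 / 19 by norm_num, Real.log_inv,
      Real.log_div (by norm_num) (by norm_num)]
    ring
  rw [e1, e2]
  have hlog : Real.log 7 < Real.log 12 := Real.log_lt_log (by norm_num) (by norm_num)
  nlinarith

theorem syr_thin {τ : ℝ} (hτ : crit < τ) : ∃ C : ℝ, 0 < C ∧ ∀ N : ℤ, N < 0 → Odd N →
    ∀ x : ℝ, 1 ≤ x → (Set.ncard {v : ℤ | |(v : ℝ)| ≤ x ∧ ∃ k : ℕ,
      (fun n : ℤ => (3 * n + 1) / 2 ^ padicValInt 2 (3 * n + 1))^[k] N = v} : ℝ) ≤ C * x ^ τ := by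
  classical
  obtain ⟨C, hC, h⟩ := orbit_le hτ
  refine ⟨C, hC, fun N hN hodd x hx => ?_⟩
  obtain ⟨m, rfl⟩ : ∃ m : ℕ, N = -(m : ℤ) := ⟨N.natAbs, by omega⟩
  have hmodd : m % 2 = 1 := by
    have h2 := Int.odd_iff.1 hodd
    omega
  set V : Set ℤ := {v : ℤ | |(v : ℝ)| ≤ x ∧ ∃ k : ℕ,
      (fun n : ℤ => (3 * n + 1) / 2 ^ padicValInt 2 (3 * n + 1))^[k] (-(m : ℤ)) = v} with hV
  have hfin : V.Finite := by
    apply (Set.finite_Icc (-⌈x⌉) ⌈x⌉).subset
    intro v hv
    have h1 := abs_le.1 hv.1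
    constructor
    · have h2 : -(⌈x⌉ : ℝ) ≤ v := by linarith [Int.le_ceil x]
      exact_mod_cast h2
    · have h2 : (v : ℝ) ≤ ⌈x⌉ := by linarith [Int.le_ceil x]
      exact_mod_cast h2
  have hneg : ∀ v ∈ V, v < 0 ∧ ∃ t, U^[t] m = v.natAbs := by
    rintro v ⟨-, k, rfl⟩
    obtain ⟨t, h1, h2⟩ := syr_iter hmodd k
    rw [h1]
    refine ⟨?_, t, ?_⟩
    · have := iter_pos (show 0 < m by omega) t
      omega
    · simp
  set F : Finset ℕ := hfin.toFinset.image Int.natAbs with hF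
  have hcard : V.ncard = F.card := by
    rw [hF, card_image_of_injOn, Set.ncard_eq_toFinset_card V hfin]
    intro a ha b hb hab
    have ha' := (hneg a (by simpa using ha)).1
    have hb' := (hneg b (by simpa using hb)).1
    omega
  rw [hcard]
  apply h m (by omega) x hx F
  intro v hv
  obtain ⟨u, hu, rfl⟩ := mem_image.1 hv
  have hu' : u ∈ V := by simpa using hu
  refine ⟨?_, (hneg u hu').2⟩
  rw [Nat.cast_natAbs, Int.cast_abs]
  exact hu'.1

end Pool.Agent.Helper55.Thin
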