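import Pool.Agent.Helper55.Thin.Syr

namespace Pool.Agent.Helper55.Thin.ThinOrbits

/-- Every Syracuse orbit of a negative odd integer is thin, uniformly in the orbit: for every exponent `τ`
above the binary entropy (in bits) of `log 2 / log 3`, which is less than `19 / 20`, there is a constant `C`
such that for every negative odd `N` and every `x ≥ 1` the orbit of `N` has at most `C * x ^ τ` different
elements of absolute value at most `x`. -/
theorem thin_orbits :
    Real.binEntropy (Real.log 2 / Real.log 3) / Real.log 2 < 19 / 20 ∧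
    ∀ τ : ℝ, Real.binEntropy (Real.log 2 / Real.log 3) / Real.log 2 < τ →
      ∃ C : ℝ, 0 < C ∧ ∀ N : ℤ, N < 0 → Odd N → ∀ x : ℝ, 1 ≤ x →
        (Set.ncard {v : ℤ | |(v : ℝ)| ≤ x ∧ ∃ k : ℕ,
          (fun n : ℤ => (3 * n + 1) / 2 ^ padicValInt 2 (3 * n + 1))^[k] N = v} : ℝ) ≤ C * x ^ τ :=
  ⟨Pool.Agent.Helper55.Thin.crit_lt, fun _ hτ => Pool.Agent.Helper55.Thin.syr_thin hτ⟩

end Pool.Agent.Helper55.Thin.ThinOrbits
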